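import Mathlib

/-!
# A non-trivial integer matrix that is unimodular together with its entrywise cube

The `5 × 5` matrix `A` below has all entries of absolute value between `2` and `7`, determinant `1`,
and the matrix of the cubes of its entries also has determinant `1`.
-/

set_option autoImplicit false

namespace Pool.Agent.Results.MP_52c232_nt.UnimodularCube

/-- the matrix -/
def A : Matrix (Fin 5) (Fin 5) ℤ :=
  !![7, -2, 3, 4, 4;
     -2, 5, 2, 3, 2;
     -2, -2, -2, -3, -3;
     -4, 3, -3, 2, -2;
     -4, 4, -5, 4, -2]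

/-- There are `n ≥ 1` and an `n × n` integer matrix `A` none of whose entries lies in `{-1, 0, 1}`
such that `A` and the matrix of the cubes of its entries both have determinant `1`. -/
theorem result : ∃ n : ℕ, 1 ≤ n ∧ ∃ A : Matrix (Fin n) (Fin n) ℤ,
    (∀ i j, A i j ≠ -1 ∧ A i j ≠ 0 ∧ A i j ≠ 1) ∧
      A.det = 1 ∧ (Matrix.of fun i j => A i j ^ 3).det = 1 := by
  refine ⟨5, by norm_num, A, ?_, ?_, ?_⟩
  · intro i j
    fin_cases i <;> fin_cases j <;> simp [A]
  · decide +kernel
  · decide +kernel

end Pool.Agent.Results.MP_52c232_nt.UnimodularCube
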